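import Pool.Agent.R964.ML.Path
import Pool.Agent.R964.ML.Cfe
import Pool.Agent.R964.ML.Hom
import Pool.Agent.R964.ML.Fe
import Pool.Agent.R964.ML.G
import Pool.Agent.R964.ML.Subst
import Pool.Agent.R964.ML.U
import Pool.Agent.R964.ML.Extr
import Pool.Agent.R964.ML.Iso
import Pool.Agent.R964.ML.Alpha
import Pool.Agent.R964.ML.Dig
import Pool.Agent.R964.ML.Comp
import Pool.Agent.R964.ML.Final

/-!
# MP_cd2f9b_nt: the 2-adic valuation of Morse link numbers minus Catalan numbers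

`L n` is the Morse link number (weighted Dyck paths), `Cat n` the Catalan number, `s2 n` the sum
of the binary digits (definitions in `Pool.Agent.R964.ML.Stm`).
-/

set_option autoImplicit false

open Pool.Agent.R964.ML

namespace Pool.Agent.Results.MP_cd2f9b_nt.AllButSparseExceptions

/-- There is a `2`-adic integer `α ≡ 23 (mod 64)` for which the conjectured formula
`ξ₂(L n - C n) = s₂(n) + ξ₂(n - α) + 2` holds truncated at `2n + 2` for all `n`; it holds for all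
`n ≥ 2` except possibly those (all `≥ 9047`) with `2^(2n - s₂(n)) ∣ n - α`; two exceptions
`n < n'` satisfy `n' - n ≥ 2^(2n - s₂(n))`. -/
theorem result : ∃ α : ℤ_[2], (64 : ℤ_[2]) ∣ α - 23 ∧
    (∀ n : ℕ, ∀ k ≤ 2 * n + 2, ((2 : ℤ) ^ k ∣ L n - Cat n) ↔
      ((2 : ℤ_[2]) ^ k ∣ 2 ^ (s2 n + 2) * ((n : ℤ_[2]) - α))) ∧
    (∀ n : ℕ, 2 ≤ n →
      ((n : ℤ_[2]) ≠ α ∧ L n - Cat n ≠ 0 ∧
        padicValInt 2 (L n - Cat n) = s2 n + ((n : ℤ_[2]) - α).valuation + 2) ∨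
      ((2 : ℤ_[2]) ^ (2 * n - s2 n) ∣ (n : ℤ_[2]) - α ∧ 9047 ≤ n)) ∧
    (∀ n n' : ℕ, 2 ≤ n → n < n' → (2 : ℤ_[2]) ^ (2 * n - s2 n) ∣ (n : ℤ_[2]) - α →
      (2 : ℤ_[2]) ^ (2 * n' - s2 n') ∣ (n' : ℤ_[2]) - α → 2 ^ (2 * n - s2 n) ≤ n' - n) := by
  have hG : S_G := G.main Cfe.main Hom.main Fe.main
  obtain ⟨φ, θ, hφ, hθ, hφθ⟩ := Subst.main
  obtain ⟨U, hU, hUF⟩ := U.main hG Subst.gg φ θ hφ hθ hφθ
  have hAB := Extr.main Subst.gg φ hφ U hU hUF
  exact Final.main Path.main hAB Iso.main Alpha.main Dig.main Comp.main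

end Pool.Agent.Results.MP_cd2f9b_nt.AllButSparseExceptions
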